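import Pool.Agent.Lib.MP_d36e13_an.Potential


open MeasureTheory Set
open Pool.Agent.Lib.MP_d36e13_an

namespace Pool.Agent.Results.MP_d36e13_an.Counterexample

theorem volume_disc {R : ℝ} (hR : 0 ≤ R) : volume (disc R) = ENNReal.ofReal (Real.pi * R ^ 2) := by
  have h := Complex.volume_preserving_equiv_real_prod.measure_preimage
    (s := disc R) (isOpen_disc R).measurableSet.nullMeasurableSet
  have e : Complex.measurableEquivRealProd ⁻¹' disc R = Metric.ball 0 R := by
    ext z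
    simp only [mem_preimage, disc, mem_ofPred_eq, Complex.measurableEquivRealProd_apply,
      mem_ball_zero_iff]
    rw [← sq_lt_sq₀ (norm_nonneg _) hR, Complex.sq_norm, Complex.normSq_apply, sq, sq]
  rw [← h, e, Complex.volume_ball, ← ENNReal.ofReal_pow hR, mul_comm,
    ENNReal.ofReal_mul Real.pi_pos.le, ← NNReal.coe_real_pi, ENNReal.ofReal_coe_nnreal]

theorem exists_radius_eq {S : Set (ℝ × ℝ)} (h0 : volume S ≠ 0) (h1 : volume S ≠ ⊤) :
    ∃ R : ℝ, 0 < R ∧ volume (disc R) = volume S ∧ Real.pi * R ^ 2 = (volume S).toReal := by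
  have hp : 0 < (volume S).toReal := ENNReal.toReal_pos h0 h1
  have hq : 0 < (volume S).toReal / Real.pi := div_pos hp Real.pi_pos
  have e : Real.pi * Real.sqrt ((volume S).toReal / Real.pi) ^ 2 = (volume S).toReal := by
    rw [Real.sq_sqrt hq.le]; field_simp
  refine ⟨_, Real.sqrt_pos.2 hq, ?_, e⟩
  rw [volume_disc (Real.sqrt_nonneg _), e, ENNReal.ofReal_toReal h1]

/-- The reverse Faber-Krahn inequality for a localized magnetic field fails:
a long stadium `Ω` with a thin concentric stadium `D` carrying the field has a larger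
lowest magnetic Neumann eigenvalue than the concentric disks of the same areas. -/
theorem result : ∃ (Φ : ℝ) (Ω D : Set (ℝ × ℝ)) (R₀ R₁ : ℝ),
    IsC1Domain Ω ∧ IsC1Domain D ∧ closure D ⊆ Ω ∧ 0 < R₀ ∧ 0 < R₁ ∧
    volume (disc R₀) = volume D ∧ volume (disc R₁) = volume Ω ∧
    (∃ A₁ A₂, IsPotential Φ Ω D A₁ A₂) ∧
    (∃ B₁ B₂, IsPotential Φ (disc R₁) (disc R₀) B₁ B₂) ∧
    ∀ A₁ A₂ B₁ B₂, IsPotential Φ Ω D A₁ A₂ → IsPotential Φ (disc R₁) (disc R₀) B₁ B₂ →
      lam (disc R₁) B₁ B₂ < lam Ω A₁ A₂ := by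
  obtain ⟨c, hc, H⟩ := lower_bound
  set L : ℝ := 464000 / c + 4 with hL
  have hL4 : 4 ≤ L := by
    have : 0 ≤ 464000 / c := by positivity
    linarith
  have hL0 : 0 ≤ L := by linarith
  obtain ⟨b, hb⟩ := H L hL0
  have hΩ := isC1Domain_dom hL0 one_pos le_rfl
  have hD := isC1Domain_dom hL0 (c := 1 / 25) (by norm_num) (by norm_num)
  have fin : ∀ {S : Set (ℝ × ℝ)}, IsC1Domain S → volume S ≠ 0 ∧ volume S ≠ ⊤ := fun h =>
    ⟨(h.isOpen.measure_pos volume h.simplyConnected.nonempty).ne', h.bounded.measure_lt_top.ne⟩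
  obtain ⟨R₀, hR₀, v₀, e₀⟩ := exists_radius_eq (fin hD).1 (fin hD).2
  obtain ⟨R₁, hR₁, v₁, e₁⟩ := exists_radius_eq (fin hΩ).1 (fin hΩ).2
  have hDpos : 0 < (volume (dom L (1 / 25))).toReal := ENNReal.toReal_pos (fin hD).1 (fin hD).2
  have eb : 2 * Real.pi * (b * (volume (dom L (1 / 25))).toReal / (2 * Real.pi)) /
      (volume (dom L (1 / 25))).toReal = b := by
    have := Real.pi_pos
    field_simp
  have big : 4 * L ≤ (volume (dom L 1)).toReal := by
    have hs : Icc (-L) L ×ˢ Ioo (-1 : ℝ) 1 ⊆ dom L 1 := by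
      rintro ⟨x, y⟩ ⟨hx, hy⟩
      change rho L (x, y) < 1
      rw [rho_eq hL0]
      have : tau L x = 0 := max_eq_right (by linarith [abs_le.2 hx])
      simp only [this]
      nlinarith [hy.1, hy.2]
    have := ENNReal.toReal_mono (fin hΩ).2 (measure_mono hs)
    rw [Measure.volume_eq_prod, Measure.prod_prod, Real.volume_Icc, Real.volume_Ioo,
      ENNReal.toReal_mul, ENNReal.toReal_ofReal (by linarith), ENNReal.toReal_ofReal (by norm_num),
      ← Measure.volume_eq_prod] at this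
    linarith
  have small : (volume (dom L (1 / 25))).toReal ≤ L := by
    have hs : dom L (1 / 25) ⊆ Icc (-(L + 1)) (L + 1) ×ˢ Icc (-(1 / 5) : ℝ) (1 / 5) :=
      fun p hp => sub_rect hL0 (c := 1 / 25) (by norm_num) (by norm_num) (by norm_num)
        (show rho L p ≤ 1 / 25 from le_of_lt hp)
    have := ENNReal.toReal_mono
      ((isCompact_Icc.prod isCompact_Icc).measure_lt_top (μ := volume)).ne (measure_mono hs)
    rw [Measure.volume_eq_prod, Measure.prod_prod, Real.volume_Icc, Real.volume_Icc,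
      ENNReal.toReal_mul, ENNReal.toReal_ofReal (by linarith), ENNReal.toReal_ofReal (by norm_num),
      ← Measure.volume_eq_prod] at this
    linarith
  have hRR : R₀ ≤ 5 * (R₁ / 10) := by
    have h1 : Real.pi * R₀ ^ 2 ≤ Real.pi * (R₁ / 2) ^ 2 := by nlinarith
    have h2 := le_of_mul_le_mul_left h1 Real.pi_pos
    have := abs_le_of_sq_le_sq h2 (by positivity)
    linarith [le_abs_self R₀]
  have hR₁L : L ≤ R₁ ^ 2 := by nlinarith [Real.pi_le_four, sq_nonneg R₁]
  refine ⟨b * (volume (dom L (1 / 25))).toReal / (2 * Real.pi), dom L 1, dom L (1 / 25), R₀, R₁,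
    hΩ, hD, closure_dom_subset (by norm_num), hR₀, hR₁, v₀, v₁, ?_, ?_, ?_⟩
  · obtain ⟨A₁, A₂, m₁, m₂, h⟩ := exists_potential hΩ.bounded
      (k := fun x => 1 / 25 - sf L x * sf L x)
      (continuous_const.sub (contDiff_sf.continuous.mul contDiff_sf.continuous)) b
    refine ⟨A₁, A₂, m₁, m₂, fun φ hφ => ?_⟩
    have e : dom L (1 / 25) = {p : ℝ × ℝ | p.2 ^ 2 < 1 / 25 - sf L p.1 * sf L p.1} := by
      ext p
      simp only [dom, rho, mem_ofPred_eq]
      constructor <;> intro h <;> linarith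
    rw [eb, e]
    exact h φ hφ
  · obtain ⟨A₁, A₂, m₁, m₂, h⟩ := exists_potential (isBounded_disc R₁)
      (k := fun x => R₀ ^ 2 - x ^ 2) (by fun_prop) b
    refine ⟨A₁, A₂, m₁, m₂, fun φ hφ => ?_⟩
    have e : disc R₀ = {p : ℝ × ℝ | p.2 ^ 2 < R₀ ^ 2 - p.1 ^ 2} := by
      ext p
      simp only [disc, mem_ofPred_eq]
      constructor <;> intro h <;> linarith
    rw [v₀, eb, e]
    exact h φ hφ
  · intro A₁ A₂ B₁ B₂ hA hB
    have lower := hb A₁ A₂ hA.memLp₁ hA.memLp₂ (fun φ hφ => by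
      have := hA.curl φ hφ
      rw [eb] at this
      exact this)
    have e10 : R₁ = 10 * (R₁ / 10) := by ring
    have upper : lam (disc R₁) B₁ B₂ ≤ ENNReal.ofReal (4640 / (R₁ / 10) ^ 2) := by
      have hB' := hB
      rw [e10] at hB'
      have := upper_bound (r := R₁ / 10) (by positivity) hR₀ hRR hB'.memLp₁ hB'.memLp₂ hB'.curl
      rwa [← e10] at this
    refine lt_of_le_of_lt upper (lt_of_lt_of_le ?_ lower)
    rw [ENNReal.ofReal_lt_ofReal_iff hc, div_lt_iff₀ (by positivity)]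
    have h1 : c * L = 464000 + 4 * c := by rw [hL]; field_simp
    nlinarith [mul_le_mul_of_nonneg_left hR₁L hc.le]

end Pool.Agent.Results.MP_d36e13_an.Counterexample
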