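import Pool.Agent.Lib.MP_d36e13_an.ND.Main

open MeasureTheory Set
open Pool.Agent.Lib.MP_d36e13_an

namespace Pool.Agent.Results.MP_d36e13_an.DiscIff

/-- For a `C^1` domain `D` carrying the field, the reverse Faber-Krahn inequality holds for all
fluxes and all outer domains exactly when `D` is a disk. -/
theorem result (D : Set (ℝ × ℝ)) (hD : IsC1Domain D) :
    List.TFAE [
      ∃ (c : ℝ × ℝ) (R : ℝ), 0 < R ∧
        D = {p : ℝ × ℝ | (p.1 - c.1) ^ 2 + (p.2 - c.2) ^ 2 < R ^ 2},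
      ∀ (Φ : ℝ) (Ω : Set (ℝ × ℝ)) (R₀ R₁ : ℝ), IsOpen Ω → Bornology.IsBounded Ω →
        IsSimplyConnected Ω → closure D ⊆ Ω → 0 < R₀ → 0 < R₁ →
        volume (disc R₀) = volume D → volume (disc R₁) = volume Ω →
        (∃ A₁ A₂, IsPotential Φ Ω D A₁ A₂) ∧
        (∃ B₁ B₂, IsPotential Φ (disc R₁) (disc R₀) B₁ B₂) ∧
        ∀ A₁ A₂ B₁ B₂, IsPotential Φ Ω D A₁ A₂ → IsPotential Φ (disc R₁) (disc R₀) B₁ B₂ →
          lam Ω A₁ A₂ ≤ lam (disc R₁) B₁ B₂,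
      ∀ (Φ : ℝ) (Ω : Set (ℝ × ℝ)) (R₀ R₁ : ℝ), IsC1Domain Ω → closure D ⊆ Ω → 0 < R₀ → 0 < R₁ →
        volume (disc R₀) = volume D → volume (disc R₁) = volume Ω →
        ∀ A₁ A₂ B₁ B₂, IsPotential Φ Ω D A₁ A₂ → IsPotential Φ (disc R₁) (disc R₀) B₁ B₂ →
          lam Ω A₁ A₂ ≤ lam (disc R₁) B₁ B₂] := by
  tfae_have 1 → 2 := by
    rintro ⟨c, R, hR, e⟩ Φ Ω R₀ R₁ hopen hbdd hsc hsub hR₀ hR₁ v₀ hvol
    have e : D = DC.discAt c R := e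
    subst e
    have eR : R₀ = R := by
      rw [DC.vol_discAt, DC.vol_disc hR₀.le, DC.vol_disc hR.le,
        ENNReal.ofReal_eq_ofReal_iff (by positivity) (by positivity)] at v₀
      exact (pow_left_inj₀ hR₀.le hR.le two_ne_zero).1 (mul_left_cancel₀ Real.pi_pos.ne' v₀)
    subst eR
    have hRR := DC.radius_lt hopen c hR₀ hR₁ hsub hvol
    have hA := DC.isPotential_can hopen hbdd c hR₀ (subset_closure.trans hsub) Φ
    have hB := DC.isPotential_can (isOpen_disc R₁) (isBounded_disc R₁) 0 hR₀ (fun p hp => by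
      rw [DC.discAt_zero] at hp
      exact lt_trans (show p.1 ^ 2 + p.2 ^ 2 < R₀ ^ 2 from hp) (by nlinarith)) Φ
    rw [DC.discAt_zero] at hB
    simp only [sub_zero] at hB
    refine ⟨⟨_, _, hA⟩, ⟨_, _, hB⟩, fun A₁ A₂ B₁ B₂ h1 h2 => ?_⟩
    exact (DC.lam_le_of_potentials hopen hbdd hsc h1 hA).trans
      ((DC.lam_can_le hopen hbdd c hR₀ hRR (subset_closure.trans hsub) hvol).trans
        (DC.lam_le_of_potentials (isOpen_disc R₁) (isBounded_disc R₁)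
          (DC.isSimplyConnected_disc hR₁) hB h2))
  tfae_have 2 → 3 := fun h Φ Ω R₀ R₁ hΩ hsub hR₀ hR₁ v₀ v₁ =>
    (h Φ Ω R₀ R₁ hΩ.isOpen hΩ.bounded hΩ.simplyConnected hsub hR₀ hR₁ v₀ v₁).2.2
  tfae_have 3 → 1 := by
    intro h
    by_contra hnd
    obtain ⟨Φ, Ω, R₀, R₁, hΩ, hcl, hR₀, hR₁, v₀, v₁, A₁, A₂, B₁, B₂, hA, hB, hlt⟩ :=
      ND.exists_violation hD hnd
    exact absurd (h Φ Ω R₀ R₁ hΩ hcl hR₀ hR₁ v₀ v₁ A₁ A₂ B₁ B₂ hA hB) (not_le.2 hlt)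
  tfae_finish

end Pool.Agent.Results.MP_d36e13_an.DiscIff
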